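import Pool.Agent.H97.PRP.Targets
import Pool.Agent.H7.HD.All
import Pool.Agent.H10.PRK.GCX
import Pool.Agent.H54.CL.Law

/-!
# BPL. The successor cardinal of `β` (MP_e37c09_lc)
-/

set_option autoImplicit false

open Ordinal Cardinal Order Set
open scoped ZFSet

universe u

namespace Pool.Agent.H10.PRP

open _root_.HD HD.PRK HD.PRP Pool.Agent.H45.NF

section defs

variable (β : Ordinal.{u}) (en : Ordinal.{u} → ZFSet.{u})

/-- `e` is the code of a map from `β` onto `c` -/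
def Pq (e c : Ordinal.{u}) : Prop :=
  (∀ a < β, ∃ v < c, v ∈ E2 en e a) ∧
  (∀ a < β, ∀ v < c, ∀ v' < c, v ∈ E2 en e a → v' ∈ E2 en e a → v = v') ∧
  ∀ v < c, ∃ a < β, v ∈ E2 en e a

/-- the least code -/
def Lq (e c : Ordinal.{u}) : Prop := Pq β en e c ∧ ∀ e' < e, ¬ Pq β en e' c

/-- the map with the least code -/
def Vq (c a v : Ordinal.{u}) : Prop := a < β ∧ v < c ∧ ∃ e, Lq β en e c ∧ v ∈ E2 en e a

/-- the code of the relation given by this map -/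
def Wq (t : Ordinal.{u} → Ordinal.{u} → Ordinal.{u}) (c x : Ordinal.{u}) : Prop :=
  ∃ a b v v', Vq β en c a v ∧ Vq β en c b v' ∧ v < v' ∧ x = t a b

end defs

variable {β : Ordinal.{u}} {en : Ordinal.{u} → ZFSet.{u}}

theorem do_Pq (hen : EN en) : DO fun w => Pq β en (w 0) (w 1) := by
  have h0 := (HD.All.ea en hen).2.1
  have hE : ∀ i j k, DO fun w => w i ∈ E2 en (w k) (w j) := fun i j k =>
    h0.s3 (X := fun b a e => b ∈ E2 en e a) i j k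
  refine DO.and ?_ (DO.and ?_ ?_)
  · refine DO.allLtc (R := fun a w => ∃ v < w 1, v ∈ E2 en (w 0) a) β ?_
    exact DO.exLt (R := fun v w => v ∈ E2 en (w 1) (w 0)) 2 (hE 0 1 2)
  · refine DO.allLtc (R := fun a w => ∀ v < w 1, ∀ v' < w 1, v ∈ E2 en (w 0) a →
      v' ∈ E2 en (w 0) a → v = v') β ?_
    refine DO.allLt (R := fun v w => ∀ v' < w 2, v ∈ E2 en (w 1) (w 0) →
      v' ∈ E2 en (w 1) (w 0) → v = v') 2 ?_
    refine DO.allLt (R := fun v' w => w 0 ∈ E2 en (w 2) (w 1) →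
      v' ∈ E2 en (w 2) (w 1) → w 0 = v') 3 ?_
    exact (hE 1 2 3).imp ((hE 0 2 3).imp (DO.eq 1 0))
  · refine DO.allLt (R := fun v w => ∃ a < β, v ∈ E2 en (w 0) a) 1 ?_
    exact DO.exLtc (R := fun a w => w 0 ∈ E2 en (w 1) a) β (hE 1 0 2)

theorem do_Lq (hen : EN en) : DO fun w => Lq β en (w 0) (w 1) := by
  refine DO.and (do_Pq hen) ?_
  refine DO.allLt (R := fun e' w => ¬ Pq β en e' (w 1)) 0 ?_
  exact ((do_Pq hen).s2 (X := fun e c => Pq β en e c) 0 2).not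

theorem do_Vq (hen : EN en) : DO fun w => Vq β en (w 0) (w 1) (w 2) := by
  have h0 := (HD.All.ea en hen).2.1
  refine DO.and (DO.ltc 1 β) (DO.and (DO.lt 2 0) ?_)
  refine DO.ex (R := fun e w => Lq β en e (w 0) ∧ w 2 ∈ E2 en e (w 1)) ?_
  exact ((do_Lq hen).s2 (X := fun e c => Lq β en e c) 0 1).and
    (h0.s3 (X := fun b a e => b ∈ E2 en e a) 3 2 0)

theorem do_Wq (hen : EN en) {t : Ordinal.{u} → Ordinal.{u} → Ordinal.{u}}
    (ht : DO fun w => w 2 = t (w 0) (w 1)) : DO fun w => Wq β en t (w 0) (w 1) := by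
  have hV : ∀ i j k, DO fun w => Vq β en (w i) (w j) (w k) := fun i j k =>
    (do_Vq hen).s3 (X := fun c a v => Vq β en c a v) i j k
  refine DO.ex (R := fun a w => ∃ b v v', Vq β en (w 0) a v ∧ Vq β en (w 0) b v' ∧ v < v' ∧
    w 1 = t a b) ?_
  refine DO.ex (R := fun b w => ∃ v v', Vq β en (w 1) (w 0) v ∧ Vq β en (w 1) b v' ∧ v < v' ∧
    w 2 = t (w 0) b) ?_
  refine DO.ex (R := fun v w => ∃ v', Vq β en (w 2) (w 1) v ∧ Vq β en (w 2) (w 0) v' ∧ v < v' ∧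
    w 3 = t (w 1) (w 0)) ?_
  refine DO.ex (R := fun v' w => Vq β en (w 3) (w 2) (w 0) ∧ Vq β en (w 3) (w 1) v' ∧
    w 0 < v' ∧ w 4 = t (w 2) (w 1)) ?_
  -- 0 = v', 1 = v, 2 = b, 3 = a, 4 = c, 5 = x
  exact (hV 4 3 1).and ((hV 4 2 0).and ((DO.lt 1 0).and
    (ht.s3 (X := fun a b c => c = t a b) 3 2 5)))

theorem Vq.uniq {c a v v' : Ordinal.{u}} (h : Vq β en c a v) (h' : Vq β en c a v') : v = v' := by
  obtain ⟨ha, hv, e, ⟨h1, h2⟩, h3⟩ := h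
  obtain ⟨-, hv', e', ⟨h1', h2'⟩, h3'⟩ := h'
  have he : e = e' := by
    rcases lt_trichotomy e e' with h | h | h
    · exact absurd h1 (h2' e h)
    · exact h
    · exact absurd h1' (h2 e' h)
  subst he
  exact h1.2.1 a ha v hv v' hv' h3 h3'

theorem lq_ex {c : Ordinal.{u}} (h : ∃ e, Pq β en e c) : ∃ e, Lq β en e c := by
  have h1 : sInf {e | Pq β en e c} ∈ {e | Pq β en e c} := csInf_mem h
  refine ⟨_, h1, fun e' he' hp => ?_⟩
  exact absurd he' (not_lt.2 (csInf_le' hp))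

theorem Vq.tot {c : Ordinal.{u}} (h : ∃ e, Pq β en e c) {a : Ordinal.{u}} (ha : a < β) :
    ∃ v < c, Vq β en c a v := by
  obtain ⟨e, he⟩ := lq_ex h
  obtain ⟨v, hv, hv'⟩ := he.1.1 a ha
  exact ⟨v, hv, ha, hv, e, he, hv'⟩

theorem Vq.onto {c : Ordinal.{u}} (h : ∃ e, Pq β en e c) {v : Ordinal.{u}} (hv : v < c) :
    ∃ a < β, Vq β en c a v := by
  obtain ⟨e, he⟩ := lq_ex h
  obtain ⟨a, ha, ha'⟩ := he.1.2.2 v hv
  exact ⟨a, ha, ha, hv, e, he, ha'⟩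

section inj

variable {t : Ordinal.{u} → Ordinal.{u} → Ordinal.{u}}
  (hinj : ∀ a b a' b', t a b = t a' b' → a = a' ∧ b = b')
  (hcl : ∀ a < β, ∀ b < β, t a b < β)

include hinj hcl

theorem mem_wq {c a b v v' : Ordinal.{u}} (h : Vq β en c a v) (h' : Vq β en c b v') :
    (t a b).toZFSet ∈ os β {x | Wq β en t c x} ↔ v < v' := by
  rw [ord_mem_os]
  constructor
  · rintro ⟨-, a1, b1, v1, v1', h1, h1', hlt, he⟩
    obtain ⟨rfl, rfl⟩ := hinj _ _ _ _ he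
    rw [h.uniq h1, h'.uniq h1']
    exact hlt
  · intro hlt
    exact ⟨hcl a h.1 b h'.1, a, b, v, v', h, h', hlt, rfl⟩

theorem wq_val {c c' : Ordinal.{u}} (hc : ∃ e, Pq β en e c) (hc' : ∃ e, Pq β en e c')
    (he : os β {x | Wq β en t c x} = os β {x | Wq β en t c' x}) (v : Ordinal.{u}) :
    ∀ a, Vq β en c a v → Vq β en c' a v := by
  induction v using WellFoundedLT.induction with
  | ind v ih =>
    intro a hv
    obtain ⟨v', hv', hV'⟩ := Vq.tot hc' hv.1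
    have h1 : v ≤ v' := by
      by_contra hlt
      rw [not_le] at hlt
      -- `v' < v`
      obtain ⟨b, hb, hVb⟩ := Vq.onto hc (hlt.trans hv.2.1)
      have h2 : Vq β en c' b v' := ih v' hlt b hVb
      have h3 : (t b a).toZFSet ∈ os β {x | Wq β en t c x} :=
        (mem_wq hinj hcl hVb hv).2 hlt
      rw [he] at h3
      exact lt_irrefl _ ((mem_wq hinj hcl h2 hV').1 h3)
    have h4 : v' ≤ v := by
      by_contra hlt
      rw [not_le] at hlt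
      -- `v < v'`
      obtain ⟨b, hb, hVb⟩ := Vq.onto hc' (hlt.trans hv')
      have h3 : (t b a).toZFSet ∈ os β {x | Wq β en t c' x} :=
        (mem_wq hinj hcl hVb hV').2 hlt
      rw [← he] at h3
      obtain ⟨u, hu, hVu⟩ := Vq.tot hc (a := b) hb
      have h5 : u < v := (mem_wq hinj hcl hVu hv).1 h3
      have h6 : Vq β en c' b u := ih u h5 b hVu
      have h7 : u = v := h6.uniq hVb
      exact absurd h5 (by rw [h7]; exact lt_irrefl _)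
    have h8 : v = v' := le_antisymm h1 h4
    rw [h8]
    exact hV'

theorem wq_inj {c c' : Ordinal.{u}} (hc : ∃ e, Pq β en e c) (hc' : ∃ e, Pq β en e c')
    (he : os β {x | Wq β en t c x} = os β {x | Wq β en t c' x}) : c = c' := by
  have key : ∀ {c c' : Ordinal.{u}}, (∃ e, Pq β en e c) → (∃ e, Pq β en e c') →
      os β {x | Wq β en t c x} = os β {x | Wq β en t c' x} → c ≤ c' := by
    intro c c' hc hc' he
    by_contra hlt
    rw [not_le] at hlt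
    obtain ⟨b, hb, hVb⟩ := Vq.onto hc hlt
    exact lt_irrefl _ (wq_val hinj hcl hc hc' he c' b hVb).2.1
  exact le_antisymm (key hc hc' he) (key hc' hc he.symm)

end inj

/-- each nonempty `c ≤ β` has a code -/
theorem pq_le (hen : EN en) {c : Ordinal.{u}} (h0 : 0 < c) (hc : c ≤ β) : ∃ e, Pq β en e c := by
  have hR : DR fun a v => (a < c ∧ v = a) ∨ (c ≤ a ∧ v = 0) :=
    ((DO.ltc 0 c).and (DO.eq 1 0)).or ((DO.gec 0 c).and (DO.eqc 1 0))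
  obtain ⟨e, he⟩ := (hen.od _).1 (od_rs hR β c)
  have hmem : ∀ a v, v ∈ E2 en e a ↔ a < β ∧ v < c ∧ ((a < c ∧ v = a) ∨ (c ≤ a ∧ v = 0)) := by
    intro a v
    show ZFSet.pair a.toZFSet v.toZFSet ∈ en e ↔ _
    rw [he, pair_mem_rs]
  refine ⟨e, fun a ha => ?_, fun a _ v _ v' _ hv hv' => ?_, fun v hv => ?_⟩
  · rcases lt_or_ge a c with h | h
    · exact ⟨a, h, (hmem a a).2 ⟨ha, h, Or.inl ⟨h, rfl⟩⟩⟩
    · exact ⟨0, h0, (hmem a 0).2 ⟨ha, h0, Or.inr ⟨h, rfl⟩⟩⟩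
  · rcases ((hmem a v).1 hv).2.2 with ⟨h1, h2⟩ | ⟨h1, h2⟩ <;>
      rcases ((hmem a v').1 hv').2.2 with ⟨h3, h4⟩ | ⟨h3, h4⟩
    · rw [h2, h4]
    · exact absurd h1 (not_lt.2 h3)
    · exact absurd h3 (not_lt.2 h1)
    · rw [h2, h4]
  · exact ⟨v, hv.trans_le hc, (hmem v v).2 ⟨hv.trans_le hc, hv, Or.inl ⟨hv, rfl⟩⟩⟩

/-- a map in HOD has a code -/
theorem pq_onto (hen : EN en) {c : Ordinal.{u}} (h : OntoHOD β c) : ∃ e, Pq β en e c := by
  obtain ⟨f, hf, ⟨hf1, hf2⟩, hf3⟩ := h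
  obtain ⟨e, he⟩ := (hen.od f).1 hf.od
  have hmem : ∀ a v, v ∈ E2 en e a ↔ ZFSet.pair a.toZFSet v.toZFSet ∈ f := by
    intro a v
    show ZFSet.pair a.toZFSet v.toZFSet ∈ en e ↔ _
    rw [he]
  refine ⟨e, fun a ha => ?_, fun a ha v _ v' _ hv hv' => ?_, fun v hv => ?_⟩
  · obtain ⟨w, hw, -⟩ := hf2 _ (toZFSet_mem_toZFSet_iff.2 ha)
    have h1 := hf1 hw
    rw [ZFSet.pair_mem_prod] at h1
    obtain ⟨v, hv, rfl⟩ := mem_toZFSet_iff.1 h1.2
    exact ⟨v, hv, (hmem a v).2 hw⟩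
  · obtain ⟨w, -, hu⟩ := hf2 _ (toZFSet_mem_toZFSet_iff.2 ha)
    exact toZFSet_injective ((hu _ ((hmem a v).1 hv)).trans (hu _ ((hmem a v').1 hv')).symm)
  · obtain ⟨a, ha, h1⟩ := hf3 v hv
    exact ⟨a, ha, (hmem a v).2 h1⟩

/-! ## The final relation -/

section fin

variable {t : Ordinal.{u} → Ordinal.{u} → Ordinal.{u}} {G : ZFSet.{u}} {lam : Ordinal.{u}}

theorem do_tc (ht : DO fun w => w 2 = t (w 0) (w 1)) (i k : ℕ) (a : Ordinal.{u}) :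
    DO fun w => w k = t (w i) a :=
  (DO.ex (R := fun o w => o = a ∧ w k = t (w i) o) ((DO.eqc 0 a).and
    (ht.s3 (X := fun a b c => c = t a b) (i + 1) 0 (k + 1)))).congr fun w => by simp

theorem do_T0 (ht : DO fun w => w 2 = t (w 0) (w 1)) :
    DO fun w => w 2 = t (t (w 0) (w 1)) 0 :=
  (DO.ex (R := fun p w => p = t (w 0) (w 1) ∧ w 2 = t p 0)
    ((ht.s3 (X := fun a b c => c = t a b) 1 2 0).and (do_tc ht 0 3 0))).congr fun w => by simp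

theorem do_Hq (hG : OD G) (hW : DO fun w => Wq β en t (w 0) (w 1)) :
    DO fun w => ZFSet.pair (w 0).toZFSet (os β {x | Wq β en t (w 1) x}) ∈ G := by
  refine DO.sub (R := fun b w => ZFSet.pair (w 0).toZFSet (os b {x | Wq β en t (w 1) x}) ∈ G)
    β ?_
  exact DO.setArg (R := fun W v => ZFSet.pair (v 1) W ∈ G)
    (DZ.od (R := fun g v => ZFSet.pair (v 2) (v 0) ∈ g) hG (loc_pmem 3 1 0).dz)
    (X := fun a w => Wq β en t (w 2) a) (hW.s2 (X := fun c x => Wq β en t c x) 3 0) 0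

/-- the final relation -/
def Rq (β lam : Ordinal.{u}) (en : Ordinal.{u} → ZFSet.{u})
    (t : Ordinal.{u} → Ordinal.{u} → Ordinal.{u}) (G : ZFSet.{u}) (z v : Ordinal.{u}) : Prop :=
  ∃ η < β, ∃ c < lam, 0 < c ∧ ZFSet.pair η.toZFSet (os β {x | Wq β en t c x}) ∈ G ∧
    ((∃ a < β, z = t (t η a) 0 ∧ Vq β en c a v) ∨ (z = t η 1 ∧ v = c))

theorem do_Rq (hen : EN en) (ht : DO fun w => w 2 = t (w 0) (w 1)) (hG : OD G) :
    DR (Rq β lam en t G) := by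
  have hH := do_Hq (β := β) hG (do_Wq hen ht)
  have hV : ∀ i j k, DO fun w => Vq β en (w i) (w j) (w k) := fun i j k =>
    (do_Vq hen).s3 (X := fun c a v => Vq β en c a v) i j k
  refine DO.exLtc (R := fun η w => ∃ c < lam, 0 < c ∧
    ZFSet.pair η.toZFSet (os β {x | Wq β en t c x}) ∈ G ∧
    ((∃ a < β, w 0 = t (t η a) 0 ∧ Vq β en c a (w 1)) ∨ (w 0 = t η 1 ∧ w 1 = c))) β ?_
  refine DO.exLtc (R := fun c w => 0 < c ∧
    ZFSet.pair (w 0).toZFSet (os β {x | Wq β en t c x}) ∈ G ∧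
    ((∃ a < β, w 1 = t (t (w 0) a) 0 ∧ Vq β en c a (w 2)) ∨ (w 1 = t (w 0) 1 ∧ w 2 = c)))
    lam ?_
  -- 0 = c, 1 = η, 2 = z, 3 = v
  refine DO.and (DO.gtc 0 0) (DO.and (hH.s2 (X := fun η c =>
    ZFSet.pair η.toZFSet (os β {x | Wq β en t c x}) ∈ G) 1 0)
    (DO.or ?_ (DO.and (do_tc ht 1 2 1) (DO.eq 3 0))))
  refine DO.exLtc (R := fun a w => w 2 = t (t (w 1) a) 0 ∧ Vq β en (w 0) a (w 3)) β ?_
  -- 0 = a, 1 = c, 2 = η, 3 = z, 4 = v
  exact DO.and ((do_T0 ht).s3 (X := fun a b c => c = t (t a b) 0) 2 0 3) (hV 1 0 4)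

/-- from a relation to a map -/
theorem onto_of_dr {R : Ordinal.{u} → Ordinal.{u} → Prop} (hR : DR R) (h0 : 0 < lam)
    (hf : ∀ z < β, ∀ v < lam, ∀ v' < lam, R z v → R z v' → v = v')
    (hon : ∀ v < lam, ∃ z < β, R z v) : OntoHOD β lam := by
  have hR' : DR fun z v => R z v ∨ (v = 0 ∧ ¬ ∃ v' < lam, R z v') := by
    refine DO.or hR (DO.and (DO.eqc 1 0) (DO.not ?_))
    exact DO.exLtc (R := fun v' w => R (w 0) v') lam (hR.s2 1 0)
  refine ⟨rs β lam fun z v => R z v ∨ (v = 0 ∧ ¬ ∃ v' < lam, R z v'), hod_rs hR' β lam,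
    ⟨fun p hp => ?_, fun x hx => ?_⟩, fun v hv => ?_⟩
  · obtain ⟨a, ha, b, hb, -, rfl⟩ := mem_rs.1 hp
    rw [ZFSet.pair_mem_prod]
    exact ⟨toZFSet_mem_toZFSet_iff.2 ha, toZFSet_mem_toZFSet_iff.2 hb⟩
  · obtain ⟨z, hz, rfl⟩ := mem_toZFSet_iff.1 hx
    by_cases h : ∃ v' < lam, R z v'
    · obtain ⟨v, hv, hRv⟩ := h
      refine ⟨v.toZFSet, pair_mem_rs.2 ⟨hz, hv, Or.inl hRv⟩, fun y hy => ?_⟩
      obtain ⟨a, ha, b, hb, hab, he⟩ := mem_rs.1 hy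
      obtain ⟨h1, rfl⟩ := ZFSet.pair_injective he
      have h2 : z = a := toZFSet_injective h1
      subst h2
      rcases hab with hab | ⟨-, hab⟩
      · rw [hf z hz b hb v hv hab hRv]
      · exact absurd ⟨v, hv, hRv⟩ hab
    · refine ⟨(0 : Ordinal.{u}).toZFSet, pair_mem_rs.2 ⟨hz, h0, Or.inr ⟨rfl, h⟩⟩,
        fun y hy => ?_⟩
      obtain ⟨a, ha, b, hb, hab, he⟩ := mem_rs.1 hy
      obtain ⟨h1, rfl⟩ := ZFSet.pair_injective he
      have h2 : z = a := toZFSet_injective h1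
      subst h2
      rcases hab with hab | ⟨hab, -⟩
      · exact absurd ⟨b, hb, hab⟩ h
      · rw [hab]
  · obtain ⟨z, hz, hRz⟩ := hon v hv
    exact ⟨z, hz, pair_mem_rs.2 ⟨hz, hv, Or.inl hRz⟩⟩

end fin

/-! ## The function `f1` -/

/-- the definition of `f1` -/
def C0 (Q : (ℕ → ZFSet.{u}) → Prop) (b l g Y : ZFSet.{u}) : Prop :=
  ∀ z, z ∈ Y ↔ ∃ ξ ∈ b, ∃ c ∈ l, (∃ e ∈ c, e = e) ∧ ZFSet.pair ξ c ∈ g ∧
    ∃ W, (∀ y, y ∈ W ↔ y ∈ b ∧ Q (cons c fun _ => y)) ∧ z = ZFSet.pair ξ W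

theorem dz_C0 {Q : (ℕ → ZFSet.{u}) → Prop} (hQ : DZ Q) (i j k m : ℕ) :
    DZ.{u} fun v => C0 Q (v i) (v j) (v k) (v m) := by
  refine DZ.all (R := fun z v => z ∈ v m ↔ ∃ ξ ∈ v i, ∃ c ∈ v j, (∃ e ∈ c, e = e) ∧
    ZFSet.pair ξ c ∈ v k ∧ ∃ W, (∀ y, y ∈ W ↔ y ∈ v i ∧ Q (cons c fun _ => y)) ∧
    z = ZFSet.pair ξ W) ?_
  refine (DZ.mem 0 (m + 1)).iff ?_
  refine DZ.exMem (R := fun ξ v => ∃ c ∈ v (j + 1), (∃ e ∈ c, e = e) ∧
    ZFSet.pair ξ c ∈ v (k + 1) ∧ ∃ W, (∀ y, y ∈ W ↔ y ∈ v (i + 1) ∧ Q (cons c fun _ => y)) ∧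
    v 0 = ZFSet.pair ξ W) (i + 1) ?_
  refine DZ.exMem (R := fun c v => (∃ e ∈ c, e = e) ∧
    ZFSet.pair (v 0) c ∈ v (k + 2) ∧ ∃ W, (∀ y, y ∈ W ↔ y ∈ v (i + 2) ∧
    Q (cons c fun _ => y)) ∧ v 1 = ZFSet.pair (v 0) W) (j + 2) ?_
  -- 0 = c, 1 = ξ, 2 = z
  refine (DZ.exMem (R := fun e _ => e = e) 0 (DZ.eq 0 0)).and ((loc_pmem 1 0 (k + 3)).dz.and ?_)
  refine DZ.ex (R := fun W v => (∀ y, y ∈ W ↔ y ∈ v (i + 3) ∧ Q (cons (v 0) fun _ => y)) ∧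
    v 2 = ZFSet.pair (v 1) W) ?_
  -- 0 = W, 1 = c, 2 = ξ, 3 = z
  refine DZ.and ?_ (loc_pair 3 2 0).dz
  refine DZ.all (R := fun y v => y ∈ v 0 ↔ y ∈ v (i + 4) ∧ Q (cons (v 1) fun _ => y)) ?_
  -- 0 = y, 1 = W, 2 = c
  refine (DZ.mem 0 1).iff ((DZ.mem 0 (i + 5)).and ?_)
  refine (hQ.ren (fun n => if n = 0 then 2 else 0)).congr fun v => ?_
  have : (cons (v 2) fun _ => v 0) = fun n => v (if n = 0 then 2 else 0) := by
    funext n
    rcases n with _ | n <;> simp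
  rw [← this]

theorem pf_BPL : T_BPL.{u} := by
  classical
  intro δ K hK hK0 C hC hS
  obtain ⟨t, ht, hinj, htlt⟩ := HD.All.pr.{u}
  obtain ⟨en, hen⟩ := HD.All.en.{u}
  have hKlt : ∀ a < K.ord, ∀ b < K.ord, t a b < K.ord := htlt K hK.aleph0_le
  obtain ⟨C1, hC1, hC1'⟩ := Pool.Agent.H10.PRK.gcx_cl hK hK0 t hKlt
  refine ⟨C ∩ C1, Pool.Agent.H54.CL.clb_inter hK0 hK hC hC1, ?_⟩
  intro x hx β hβ hxβ hunb hfin lam hβl hon hnon f hf hFun
  have hx' : Sml δ K.ord C x := ⟨hx.ne, fun z hz => by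
    obtain ⟨a, ha, haC, hac, he⟩ := hx.mem z hz
    exact ⟨a, ha, haC.1, hac, he⟩, hx.few⟩
  have hxC : ∀ a : Ordinal.{u}, a.toZFSet ∈ x → a ∈ C1 ∧ a < β := by
    intro a ha
    obtain ⟨a', -, haC, -, he⟩ := hx.mem _ ha
    rw [toZFSet_injective he]
    refine ⟨haC.2, ?_⟩
    have := hxβ ha
    rw [he] at this
    exact toZFSet_mem_toZFSet_iff.1 this
  have hcl : ∀ a < β, ∀ b < β, t a b < β := by
    intro a ha b hb
    obtain ⟨c, hc, hcx⟩ := hunb (max a b) (max_lt ha hb)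
    obtain ⟨h1, h2⟩ := hxC c hcx
    exact ((hC1' c h1).2 a ((le_max_left _ _).trans_lt hc) b
      ((le_max_right _ _).trans_lt hc)).trans h2
  have h1β : (1 : Ordinal.{u}) < β := by
    obtain ⟨z, hz⟩ := hx.ne
    obtain ⟨a, -, -, -, rfl⟩ := hx.mem z hz
    obtain ⟨h1, h2⟩ := hxC a hz
    have h3 := (hC1' a h1).1
    have h4 : (1 : Ordinal.{u}) < a := Ordinal.one_lt_of_isSuccLimit h3
    exact h4.trans h2
  have h0β : (0 : Ordinal.{u}) < β := zero_lt_one.trans h1β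
  have h1l : (1 : Ordinal.{u}) < lam := h1β.trans hβl
  have hgood : ∀ c < lam, 0 < c → ∃ e, Pq β en e c := by
    intro c hc h0
    rcases le_or_gt c β with h | h
    · exact pq_le hen h0 h
    · exact pq_onto hen (hon c h hc)
  by_contra hcon
  push Not at hcon
  -- the sequence
  set W : Ordinal.{u} → ZFSet.{u} := fun c => os β {x | Wq β en t c x} with hWd
  have hWsub : ∀ c, W c ⊆ β.toZFSet := by
    intro c y hy
    obtain ⟨a, ha, -, rfl⟩ := mem_os.1 hy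
    exact toZFSet_mem_toZFSet_iff.2 ha
  have hWinj : ∀ c c', c < lam → 0 < c → c' < lam → 0 < c' → W c = W c' → c = c' :=
    fun c c' h1 h2 h3 h4 he => wq_inj hinj hcl (hgood c h1 h2) (hgood c' h3 h4) he
  have hDW := do_Wq (β := β) hen ht
  have hWhod : ∀ c, HOD (W c) := by
    intro c
    refine hod_os (X := {x | Wq β en t c x}) ?_ β
    exact DO.sect1 (R := fun c x => Wq β en t c x) hDW c
  let f1 : ZFSet.{u} := ZFSet.sep (fun z => ∃ ξ < β, ∃ c < lam, 0 < c ∧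
    ZFSet.pair ξ.toZFSet c.toZFSet ∈ f ∧ z = ZFSet.pair ξ.toZFSet (W c))
    (ZFSet.prod β.toZFSet (ZFSet.powerset β.toZFSet))
  have hmem1 : ∀ z, z ∈ f1 ↔ ∃ ξ < β, ∃ c < lam, 0 < c ∧
      ZFSet.pair ξ.toZFSet c.toZFSet ∈ f ∧ z = ZFSet.pair ξ.toZFSet (W c) := by
    intro z
    show z ∈ ZFSet.sep _ _ ↔ _
    rw [ZFSet.mem_sep]
    constructor
    · exact fun h => h.2
    · rintro ⟨ξ, hξ, c, hc, h0, hp, rfl⟩
      refine ⟨?_, ξ, hξ, c, hc, h0, hp, rfl⟩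
      rw [ZFSet.pair_mem_prod]
      exact ⟨toZFSet_mem_toZFSet_iff.2 hξ, ZFSet.mem_powerset.2 (hWsub c)⟩
  obtain ⟨Q, hQ, hq⟩ := hDW
  have hC0 : ∀ Y, C0 Q β.toZFSet lam.toZFSet f Y ↔ Y = f1 := by
    have e : ∀ a b : Ordinal.{u}, (cons a.toZFSet fun _ => b.toZFSet) =
        ov (cns a fun _ => b) := by
      intro a b
      rw [ov_cns]
      rfl
    have hWc : ∀ (c : Ordinal.{u}) V, (∀ y, y ∈ V ↔ y ∈ β.toZFSet ∧
        Q (cons c.toZFSet fun _ => y)) ↔ V = W c := by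
      intro c V
      have h1 : ∀ y, y ∈ W c ↔ y ∈ β.toZFSet ∧ Q (cons c.toZFSet fun _ => y) := by
        intro y
        rw [hWd]
        beta_reduce
        rw [mem_os]
        constructor
        · rintro ⟨a, ha, h, rfl⟩
          refine ⟨toZFSet_mem_toZFSet_iff.2 ha, ?_⟩
          rw [e]
          exact (hq (cns c fun _ => a)).1 h
        · rintro ⟨h1, h2⟩
          obtain ⟨a, ha, rfl⟩ := mem_toZFSet_iff.1 h1
          rw [e] at h2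
          exact ⟨a, ha, (hq (cns c fun _ => a)).2 h2, rfl⟩
      constructor
      · intro h
        ext y
        rw [h, h1]
      · rintro rfl
        exact h1
    have h1 : ∀ z, (∃ ξ ∈ β.toZFSet, ∃ c ∈ lam.toZFSet, (∃ e ∈ c, e = e) ∧
        ZFSet.pair ξ c ∈ f ∧ ∃ V, (∀ y, y ∈ V ↔ y ∈ β.toZFSet ∧ Q (cons c fun _ => y)) ∧
        z = ZFSet.pair ξ V) ↔ z ∈ f1 := by
      intro z
      rw [hmem1]
      constructor
      · rintro ⟨ξ, hξ, c, hc, ⟨e', he', -⟩, hp, V, hV, hz⟩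
        obtain ⟨ξ, hξ', rfl⟩ := mem_toZFSet_iff.1 hξ
        obtain ⟨c, hc', rfl⟩ := mem_toZFSet_iff.1 hc
        obtain ⟨e'', he'', -⟩ := mem_toZFSet_iff.1 he'
        rw [(hWc c V).1 hV] at hz
        exact ⟨ξ, hξ', c, hc', bot_le.trans_lt he'', hp, hz⟩
      · rintro ⟨ξ, hξ, c, hc, h0, hp, hz⟩
        exact ⟨_, toZFSet_mem_toZFSet_iff.2 hξ, _, toZFSet_mem_toZFSet_iff.2 hc,
          ⟨_, toZFSet_mem_toZFSet_iff.2 h0, rfl⟩, hp, W c, (hWc c _).2 rfl, hz⟩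
    intro Y
    constructor
    · intro h
      ext z
      rw [h z, h1]
    · rintro rfl z
      rw [h1]
  have hf1 : NF.ODp x f1 := by
    obtain ⟨P, hP, h⟩ := ODp.def hf
    refine ODp.of_dz (Q := fun v => ∃ g, P (cons g fun _ => v 1) ∧
      C0 Q β.toZFSet lam.toZFSet g (v 0)) ?_ fun y => ?_
    · refine DZ.ex (R := fun g v => P (cons g fun _ => v 1) ∧
        C0 Q β.toZFSet lam.toZFSet g (v 0)) ?_
      refine DZ.and ?_ ?_
      · refine (hP.ren fun n => if n = 0 then 0 else 2).congr fun v => ?_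
        have : (cons (v 0) fun _ => v 2) = fun n => v (if n = 0 then 0 else 2) := by
          funext n
          rcases n with _ | n <;> simp
        rw [← this]
      · refine DZ.sub (R := fun b v => C0 Q b lam.toZFSet (v 0) (v 1)) (DZ.eqOrd β 0) ?_
        exact DZ.sub (R := fun l v => C0 Q (v 0) l (v 1) (v 2)) (DZ.eqOrd lam 0)
          (dz_C0 hQ 1 0 2 3)
    · constructor
      · rintro ⟨g, hg, hgC⟩
        have hg' := (h g).1 hg
        subst hg'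
        exact (hC0 y).1 hgC
      · rintro rfl
        exact ⟨f, (h f).2 rfl, (hC0 _).2 rfl⟩
  have hpair1 : ∀ a Y, ZFSet.pair a Y ∈ f1 → ∃ ξ < β, ∃ c < lam, 0 < c ∧
      ZFSet.pair ξ.toZFSet c.toZFSet ∈ f ∧ a = ξ.toZFSet ∧ Y = W c := by
    intro a Y h
    obtain ⟨ξ, hξ, c, hc, h0, hp, he⟩ := (hmem1 _).1 h
    obtain ⟨e1, e2⟩ := ZFSet.pair_injective he
    exact ⟨ξ, hξ, c, hc, h0, hp, e1, e2⟩
  have hFun1 : Fun f1 := by
    intro w Y Y' hY hY'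
    obtain ⟨ξ, -, c, -, -, hp, hw, rfl⟩ := hpair1 _ _ hY
    obtain ⟨ξ', -, c', -, -, hp', hw', rfl⟩ := hpair1 _ _ hY'
    rw [hw] at hw'
    rw [← hw'] at hp'
    rw [toZFSet_injective (hFun _ _ _ hp hp')]
  obtain ⟨G, hG, hGF, hGv⟩ := hS x hx' β hβ hxβ hunb hfin f1 hf1 hFun1 (fun ξ _ w hw => by
    obtain ⟨-, -, c, -, -, -, -, rfl⟩ := hpair1 _ _ hw
    exact ⟨hWhod c, hWsub c⟩)
  -- the map onto `lam`
  refine hnon (onto_of_dr (do_Rq (β := β) (lam := lam) hen ht hG.od) (zero_lt_one.trans h1l)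
    ?_ ?_)
  · rintro z - v - v' - ⟨η, hη, c, hc, h0, hp, h⟩ ⟨η', hη', c', hc', h0', hp', h'⟩
    have hcc : η = η' → c = c' := by
      rintro rfl
      exact hWinj c c' hc h0 hc' h0' (hGF _ _ _ hp hp')
    rcases h with ⟨a, ha, hz, hV⟩ | ⟨hz, hV⟩ <;> rcases h' with ⟨a', ha', hz', hV'⟩ | ⟨hz', hV'⟩
    · obtain ⟨e1, -⟩ := hinj _ _ _ _ (hz.symm.trans hz')
      obtain ⟨e2, e3⟩ := hinj _ _ _ _ e1
      subst e3
      rw [← hcc e2] at hV'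
      exact hV.uniq hV'
    · obtain ⟨-, e2⟩ := hinj _ _ _ _ (hz.symm.trans hz')
      exact absurd e2 zero_ne_one
    · obtain ⟨-, e2⟩ := hinj _ _ _ _ (hz.symm.trans hz')
      exact absurd e2 one_ne_zero
    · obtain ⟨e1, -⟩ := hinj _ _ _ _ (hz.symm.trans hz')
      rw [hV, hV', hcc e1]
  · intro ν hν
    obtain ⟨ξ, hξ, c, hc, hp, hle⟩ := hcon (max ν 1) (max_lt hν h1l)
    have h0 : 0 < c := zero_lt_one.trans_le ((le_max_right _ _).trans hle)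
    have hνc : ν ≤ c := (le_max_left _ _).trans hle
    obtain ⟨η, hη, hpG⟩ := hGv ξ hξ (W c) ((hmem1 _).2 ⟨ξ, hξ, c, hc, h0, hp, rfl⟩)
    rcases hνc.lt_or_eq with h | h
    · obtain ⟨a, ha, hV⟩ := Vq.onto (hgood c hc h0) h
      exact ⟨t (t η a) 0, hcl _ (hcl _ hη _ ha) _ h0β, η, hη, c, hc, h0, hpG,
        Or.inl ⟨a, ha, rfl, hV⟩⟩
    · exact ⟨t η 1, hcl _ hη _ h1β, η, hη, c, hc, h0, hpG, Or.inr ⟨rfl, h⟩⟩

end Pool.Agent.H10.PRP
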